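import Pool.Agent.KS6_1.Nil.Sys

/-!
# Which correlations `∫ f · T^v g · T^(A v) h` are approximate 1-step nilsequences?

Exactly those with `A² = A`: for every dimension `d` and every integer `d × d` matrix `A`, the
correlation sequences `v ↦ ∫ f · T^v g · T^(A v) h dμ` of all measure preserving actions `T` of `ℤ^d`
are approximate 1-step nilsequences in `d` variables if `A² = A`, and if `A² ≠ A` there are a free
action of `ℤ^d` on a non-atomic Lebesgue probability space and functions `f, g, h` of modulus one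
whose correlation sequence has distance at least `1` from every 1-step nilsequence. The question is
the case `d = 2` of the exchange of coordinates.
-/

open MeasureTheory Filter Topology ENNReal Matrix
open KS6Nil

namespace Pool.Agent.Results.MP_8ac988_an.AllMatrices

theorem seminorm_congr {d : ℕ} (a b : (Fin d → ℤ) → ℂ) (h : ∀ v, (∀ i, 1 ≤ v i) → a v = b v) :
    seminormTwo a = seminormTwo b := by
  unfold seminormTwo
  congr 1
  refine iSup_congr fun I => ?_
  congr 1
  funext j
  congr 1
  refine Finset.sum_congr rfl fun v hv => ?_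
  rw [h v (I.2.2.1 j v hv)]

theorem result.{u} (d : ℕ) (A : Matrix (Fin d) (Fin d) ℤ) :
    (A * A = A → ∀ (X : Type u) [MeasurableSpace X] (μ : Measure X) [IsProbabilityMeasure μ]
      (T : (Fin d → ℤ) → X → X), (∀ x, T 0 x = x) → (∀ u v x, T (u + v) x = T u (T v x)) →
      (∀ u, MeasurePreserving (T u) μ μ) → ∀ f g h : X → ℂ, MemLp f ⊤ μ → MemLp g ⊤ μ →
      MemLp h ⊤ μ → IsApproxNilseq 1 (corr μ T A f g h)) ∧
    (A * A ≠ A → ∃ (X : Type) (_ : MeasurableSpace X) (_ : StandardBorelSpace X) (μ : Measure X)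
      (_ : IsProbabilityMeasure μ) (T : (Fin d → ℤ) → X → X),
      (∀ x, μ {x} = 0) ∧ (∀ x, T 0 x = x) ∧ (∀ u v x, T (u + v) x = T u (T v x)) ∧
      (∀ u, MeasurePreserving (T u) μ μ) ∧ (∀ u, u ≠ 0 → ∀ x, T u x ≠ x) ∧
      ∃ f g h : X → ℂ, Measurable f ∧ Measurable g ∧ Measurable h ∧
        (∀ x, ‖f x‖ = 1) ∧ (∀ x, ‖g x‖ = 1) ∧ (∀ x, ‖h x‖ = 1) ∧
        ¬ IsApproxNilseq 1 (corr μ T A f g h) ∧
        ∀ ψ : (Fin d → ℤ) → ℂ, IsNilseq 1 ψ →
          1 ≤ seminormTwo (fun v => corr μ T A f g h v - ψ v)) := by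
  refine ⟨fun hA X _ μ _ T hT0 hT hmp f g h hf hg hh =>
    positive μ A hA T hT0 hT hmp f g h hf hg hh, fun hA => ?_⟩
  obtain ⟨S, hS1, hS2, hS3⟩ := exists_sym A hA
  have hθ : Irrational (Real.sqrt 2) := irrational_sqrt_two
  have hp := prob_circle
  set α : UnitAddCircle := ((Real.sqrt 2 : ℝ) : UnitAddCircle) with hα
  set w : Circle := AddCircle.toCircle α with hw
  have hw1 : ∀ n : ℤ, n ≠ 0 → w ^ n ≠ 1 := by
    intro n hn h
    rw [hw, ← toCircle_zsmul', ← AddCircle.toCircle_zero (T := (1 : ℝ))] at h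
    exact smul_ne _ hθ n hn (AddCircle.injective_toCircle one_ne_zero h)
  set M : Matrix (Fin d) (Fin d) ℤ := S * A * A - S * A with hM
  have hMt : Mᵀ = M := by
    have h1 : Aᵀ * S = S * A := by
      rw [Matrix.transpose_mul, hS1] at hS2; exact hS2
    have h2 : (S * A * A)ᵀ = S * A * A := by
      rw [Matrix.transpose_mul, hS2, ← Matrix.mul_assoc, h1]
    rw [hM, Matrix.transpose_sub, h2, hS2]
  have hsa : StandardBorelSpace (Fin d → UnitAddCircle) := StandardBorelSpace.pi_countable
  have hsb : StandardBorelSpace (UnitAddCircle × UnitAddCircle) := StandardBorelSpace.prod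
  have hs1 : StandardBorelSpace (Spc d) := StandardBorelSpace.prod
  have hprob : IsProbabilityMeasure (volume : Measure (Spc d)) := inferInstance
  have hcorr : ∀ v, corr (volume : Measure (Spc d)) (act S A α) A fF fG fH v = qph w M v := by
    intro v
    unfold corr
    simp only [integrand S A α hS2]
    simp [hw, hM]
  have hdist : ∀ ψ : (Fin d → ℤ) → ℂ, IsNilseq 1 ψ →
      1 ≤ seminormTwo (fun v => corr (volume : Measure (Spc d)) (act S A α) A fF fG fH v - ψ v) := by
    intro ψ hψ
    simp only [hcorr]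
    exact main_neg w hw1 M hMt hS3 ψ hψ
  have hcirc : Continuous (fun x : UnitAddCircle => ((AddCircle.toCircle x : Circle) : ℂ)) :=
    Continuous.comp (continuous_subtype_val) AddCircle.continuous_toCircle
  refine ⟨Spc d, inferInstance, hs1, volume, hprob, act S A α, single_zero, act_zero S A α,
    act_add S A α hS1 hS2, act_mp S A α, fun u hu x => act_free S A _ hθ u hu x, fF, fG, fH,
    ?_, ?_, ?_, fun x => Circle.norm_coe _, fun x => Circle.norm_coe _,
    fun x => Circle.norm_coe _, ?_, hdist⟩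
  · exact (hcirc.comp (by fun_prop)).measurable
  · exact (hcirc.comp (by fun_prop)).measurable
  · exact (hcirc.comp (by fun_prop)).measurable
  · intro happ
    obtain ⟨ast, aer, h1, h2, -, h4⟩ := happ (1 / 2) (by norm_num)
    have h5 := hdist ast h2
    rw [seminorm_congr _ aer (fun v hv => by rw [h1 v hv]; ring)] at h5
    have h6 := h5.trans h4
    rw [← ENNReal.ofReal_one, ENNReal.ofReal_le_ofReal_iff (by norm_num)] at h6
    norm_num at h6

end Pool.Agent.Results.MP_8ac988_an.AllMatrices
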